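import Pool.Agent.R358.FV.Gen

/-! The symmetries of the regular tetrahedron. -/

set_option autoImplicit false

namespace Pool.Agent.R358.FV

open Set

/-- the vertices of a regular tetrahedron -/
def tet : Set V := {![1, 1, 1], ![1, -1, -1], ![-1, 1, -1], ![-1, -1, 1]}

def tz : Fin 4 → Fin 3 → ℤ := ![![1, 1, 1], ![1, -1, -1], ![-1, 1, -1], ![-1, -1, 1]]

def tv (k : Fin 4) : V := fun i => (tz k i : ℝ)

lemma tet_eq : tet = range tv := by
  ext x
  simp only [tet, mem_insert_iff, mem_singleton_iff, mem_range]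
  have h0 : tv 0 = ![1, 1, 1] := by ext i; fin_cases i <;> simp [tv, tz]
  have h1 : tv 1 = ![1, -1, -1] := by ext i; fin_cases i <;> simp [tv, tz]
  have h2 : tv 2 = ![-1, 1, -1] := by ext i; fin_cases i <;> simp [tv, tz]
  have h3 : tv 3 = ![-1, -1, 1] := by ext i; fin_cases i <;> simp [tv, tz]
  constructor
  · rintro (h | h | h | h)
    · exact ⟨0, by rw [h, h0]⟩
    · exact ⟨1, by rw [h, h1]⟩
    · exact ⟨2, by rw [h, h2]⟩
    · exact ⟨3, by rw [h, h3]⟩
  · rintro ⟨k, rfl⟩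
    fin_cases k
    · left; exact h0
    · right; left; exact h1
    · right; right; left; exact h2
    · right; right; right; exact h3

/-- signed permutations of the coordinates with an even number of signs -/
def act (σ : Equiv.Perm (Fin 3)) (k : Fin 4) (v : V) : V := fun i => tv k i * v (σ i)

def mat (σ : Equiv.Perm (Fin 3)) (k : Fin 4) : Matrix (Fin 3) (Fin 3) ℝ :=
  Matrix.of fun i j => if j = σ i then tv k i else 0

lemma mat_mulVec (σ : Equiv.Perm (Fin 3)) (k : Fin 4) (v : V) :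
    (mat σ k).mulVec v = act σ k v := by
  ext i
  simp [mat, act, Matrix.mulVec, dotProduct]

lemma tz_sq (k : Fin 4) (i : Fin 3) : tz k i * tz k i = 1 := by
  revert k i; decide

lemma tv_sq (k : Fin 4) (i : Fin 3) : tv k i * tv k i = 1 := by
  have := tz_sq k i
  simp only [tv]
  exact_mod_cast this

lemma mat_orth (σ : Equiv.Perm (Fin 3)) (k : Fin 4) :
    mat σ k ∈ Matrix.orthogonalGroup (Fin 3) ℝ := by
  rw [Matrix.mem_orthogonalGroup_iff]
  ext i j
  simp only [mat, Matrix.mul_apply, Matrix.of_apply, Matrix.one_apply, ite_mul, zero_mul]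
  rw [Finset.sum_eq_single (σ i)]
  · by_cases h : i = j
    · subst h
      simp [tv_sq]
    · have : ¬ (σ i = σ j) := fun hh => h (σ.injective hh)
      simp [this, h]
  · intro b _ hb
    simp [hb]
  · simp

lemma tz_act : ∀ (σ : Equiv.Perm (Fin 3)) (k m : Fin 4), ∃ n : Fin 4, ∀ i,
    tz n i = tz k i * tz m (σ i) := by decide

lemma tz_act' : ∀ (σ : Equiv.Perm (Fin 3)) (k m : Fin 4), ∃ n : Fin 4, ∀ i,
    tz m i = tz k i * tz n (σ i) := by decide

lemma mat_sym (σ : Equiv.Perm (Fin 3)) (k : Fin 4) : mat σ k ∈ Sym tet := by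
  refine ⟨mat_orth σ k, ?_⟩
  rw [tet_eq]
  ext x
  constructor
  · rintro ⟨y, ⟨m, rfl⟩, rfl⟩
    obtain ⟨n, hn⟩ := tz_act σ k m
    refine ⟨n, ?_⟩
    rw [mat_mulVec]
    ext i
    simp only [tv, act, hn]
    push_cast
    ring
  · rintro ⟨m, rfl⟩
    obtain ⟨n, hn⟩ := tz_act' σ k m
    refine ⟨tv n, ⟨n, rfl⟩, ?_⟩
    rw [mat_mulVec]
    ext i
    simp only [tv, act, hn i]
    push_cast
    ring

/-- the inverse of an element -/
lemma act_inv (σ : Equiv.Perm (Fin 3)) (k : Fin 4) : ∃ (τ : Equiv.Perm (Fin 3)) (m : Fin 4),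
    (∀ v, act σ k (act τ m v) = v) ∧ ∀ v, act τ m (act σ k v) = v := by
  have h : ∀ (σ : Equiv.Perm (Fin 3)) (k : Fin 4), ∃ (τ : Equiv.Perm (Fin 3)) (m : Fin 4),
      (∀ i, τ (σ i) = i) ∧ (∀ i, σ (τ i) = i) ∧ (∀ i, tz k i * tz m (σ i) = 1) ∧
        ∀ i, tz m i * tz k (τ i) = 1 := by decide
  obtain ⟨τ, m, h1, h2, h3, h4⟩ := h σ k
  refine ⟨τ, m, fun v => ?_, fun v => ?_⟩
  · ext i
    have : (tz k i : ℝ) * tz m (σ i) = 1 := by exact_mod_cast h3 i
    simp only [act, tv, h1, ← mul_assoc, this, one_mul]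
  · ext i
    have : (tz m i : ℝ) * tz k (τ i) = 1 := by exact_mod_cast h4 i
    simp only [act, tv, h2, ← mul_assoc, this, one_mul]

/-- the linear equivalence of an element -/
noncomputable def actE (σ : Equiv.Perm (Fin 3)) (k : Fin 4) : V ≃ₗ[ℝ] V :=
  LinearEquiv.ofBijective
    { toFun := act σ k
      map_add' := fun x y => by ext i; simp only [act, Pi.add_apply]; ring
      map_smul' := fun c x => by
        ext i; simp only [act, Pi.smul_apply, smul_eq_mul, RingHom.id_apply]; ring }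
    (by
      obtain ⟨τ, m, h1, h2⟩ := act_inv σ k
      refine ⟨fun x y h => ?_, fun x => ⟨act τ m x, h1 x⟩⟩
      have h' : act σ k x = act σ k y := h
      rw [← h2 x, h', h2 y])

lemma actE_apply (σ : Equiv.Perm (Fin 3)) (k : Fin 4) (v : V) : actE σ k v = act σ k v := rfl

lemma dot_act (σ : Equiv.Perm (Fin 3)) (k : Fin 4) (c v : V) :
    dot (act σ k c) (act σ k v) = dot c v := by
  have h : ∀ (c v : V), dot c v = ∑ i, c i * v i := fun c v => by
    rw [Fin.sum_univ_three]; rfl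
  rw [h, h, ← Equiv.sum_comp σ (fun i => c i * v i)]
  refine Finset.sum_congr rfl fun i _ => ?_
  simp only [act]
  linear_combination (c (σ i) * v (σ i)) * tv_sq k i

/-- the sets which are invariant under the full symmetry group of the tetrahedron -/
def Inv (P : Set V) : Prop := ∀ (σ : Equiv.Perm (Fin 3)) (k : Fin 4), act σ k '' P = P

lemma inv_of_sym {P : Set V} (h : ∀ A ∈ Sym tet, A.mulVec '' P = P) : Inv P := by
  intro σ k
  have h1 := h _ (mat_sym σ k)
  have h2 : (mat σ k).mulVec = act σ k := funext fun v => mat_mulVec σ k v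
  rwa [h2] at h1

lemma Inv.mem {P : Set V} (h : Inv P) (σ : Equiv.Perm (Fin 3)) (k : Fin 4) {v : V} (hv : v ∈ P) :
    act σ k v ∈ P := by
  rw [← h σ k]
  exact ⟨v, hv, rfl⟩

lemma Inv.extreme {P : Set V} (h : Inv P) : Inv (P.extremePoints ℝ) := by
  intro σ k
  have h1 := image_extremePoints (𝕜 := ℝ) (actE σ k) P
  have h2 : (actE σ k : V → V) = act σ k := rfl
  rw [h2, h σ k] at h1
  exact h1

lemma face_act {P : Set V} (h : Inv P) (σ : Equiv.Perm (Fin 3)) (k : Fin 4) (c : V) :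
    face P (act σ k c) = act σ k '' face P c := by
  obtain ⟨τ, m, h1, h2⟩ := act_inv σ k
  ext x
  constructor
  · rintro ⟨hx, hm⟩
    refine ⟨act τ m x, ⟨h.mem τ m hx, fun y hy => ?_⟩, h1 x⟩
    have := hm _ (h.mem σ k hy)
    rw [dot_act] at this
    rw [← h1 x, dot_act] at this
    exact this
  · rintro ⟨y, ⟨hy, hm⟩, rfl⟩
    refine ⟨h.mem σ k hy, fun z hz => ?_⟩
    have := hm _ (h.mem τ m hz)
    rw [dot_act, ← h1 z, dot_act]
    exact this

lemma finrank_act {F : Set V} (σ : Equiv.Perm (Fin 3)) (k : Fin 4) :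
    Module.finrank ℝ (vectorSpan ℝ (act σ k '' F)) = Module.finrank ℝ (vectorSpan ℝ F) := by
  have h2 : (actE σ k : V → V) = act σ k := rfl
  have h3 : act σ k '' F = ((actE σ k).toLinearMap.toAffineMap : V → V) '' F := rfl
  rw [h3, ← AffineMap.map_vectorSpan]
  exact LinearEquiv.finrank_map_eq (actE σ k) _

end Pool.Agent.R358.FV
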