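import Pool.Agent.R358.FV.Main

/-! Polytopes with twelve vertices and the full symmetry group of the tetrahedron: at most fourteen
facets. -/

set_option autoImplicit false

namespace Pool.Agent.R358.FV

open Set

/-- `c` is a positive multiple of a special direction -/
def NN (c : V) : Prop := ∃ m : Fin 14, ∃ t : ℝ, 0 < t ∧ c = t • nv m

lemma refl_ineq {P : Set V} (h : Inv P) {c v : V} (hv : v ∈ face P c) (σ : Equiv.Perm (Fin 3))
    (k : Fin 4) : dot c (act σ k v) ≤ dot c v :=
  hv.2 _ (h.mem σ k hv.1)

/-- the inequalities for the points of a face from the six reflections -/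
lemma six {P : Set V} (h : Inv P) {c v : V} (hv : v ∈ face P c) :
    0 ≤ (c 0 - c 1) * (v 0 - v 1) ∧ 0 ≤ (c 1 - c 2) * (v 1 - v 2) ∧
    0 ≤ (c 1 + c 2) * (v 1 + v 2) ∧ 0 ≤ (c 0 - c 2) * (v 0 - v 2) ∧
    0 ≤ (c 0 + c 2) * (v 0 + v 2) := by
  have h1 := refl_ineq h hv (Equiv.swap 0 1) 0
  have h2 := refl_ineq h hv (Equiv.swap 1 2) 0
  have h3 := refl_ineq h hv (Equiv.swap 1 2) 1
  have h4 := refl_ineq h hv (Equiv.swap 0 2) 0
  have h5 := refl_ineq h hv (Equiv.swap 0 2) 2
  have e02 : (Equiv.swap (0 : Fin 3) 1) 2 = 2 := by decide
  have e10 : (Equiv.swap (1 : Fin 3) 2) 0 = 0 := by decide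
  have e21 : (Equiv.swap (0 : Fin 3) 2) 1 = 1 := by decide
  simp only [dot, act, tv, tz, Equiv.swap_apply_left, Equiv.swap_apply_right, e02, e10, e21] at h1 h2 h3 h4 h5
  simp at h1 h2 h3 h4 h5
  refine ⟨?_, ?_, ?_, ?_, ?_⟩ <;> nlinarith

lemma pos_of_mul {a b : ℝ} (ha : 0 < a) (h : 0 ≤ a * b) : 0 ≤ b := by
  by_contra hb
  push Not at hb
  have := mul_neg_of_pos_of_neg ha hb
  linarith

/-- the faces of dimension two in a direction of the chamber -/
lemma chamber_face {s : Set V} (hs : s.Finite) (h : Inv (convexHull ℝ s))
    (hint : (interior (convexHull ℝ s)).Nonempty) {x z : ℝ} (hx : 0 < x)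
    (hz : z ^ 2 ≠ x ^ 2) (hE : (convexHull ℝ s).extremePoints ℝ = orb x z) {c : V}
    (h01 : c 1 ≤ c 0) (h12 : c 2 ≤ c 1) (h12' : -c 2 ≤ c 1)
    (hQ : Module.finrank ℝ (vectorSpan ℝ (face (convexHull ℝ s) c)) = 2) : NN c := by
  have hEinv : Inv ((convexHull ℝ s).extremePoints ℝ) := h.extreme
  have hex := face_exposed (convexHull ℝ s) c
  have hc1 : 0 ≤ c 1 := by linarith
  have two : ∀ p q : V, (∀ v ∈ face (convexHull ℝ s) c, v ∈ (convexHull ℝ s).extremePoints ℝ →
      v = p ∨ v = q) → False := by
    intro p q hpq
    have h1 := dim_le_one hs hex p q (by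
      rintro v ⟨hv1, hv2⟩
      exact hpq v hv1 hv2)
    omega
  rcases hc1.eq_or_lt with g1 | g1
  · -- c 1 = 0
    have hc2 : c 2 = 0 := by linarith
    rcases (show 0 ≤ c 0 by linarith).eq_or_lt with g0 | g0
    · exfalso
      have hc : c = 0 := by
        ext i
        fin_cases i
        · exact g0.symm
        · exact g1.symm
        · exact hc2
      have hface : face (convexHull ℝ s) c = convexHull ℝ s := by
        ext v
        simp only [face, hc, dot, Pi.zero_apply, zero_mul, add_zero, le_refl, implies_true,
          and_true, Set.ofPred_mem_eq]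
      rw [hface] at hQ
      have h1 := (convex_convexHull ℝ s).interior_nonempty_iff_affineSpan_eq_top.1 hint
      rw [← direction_affineSpan, h1, AffineSubspace.direction_top, finrank_top] at hQ
      simp at hQ
    · exact ⟨0, c 0, g0, by ext i; fin_cases i <;> simp [nv, nz, ← g1, hc2]⟩
  · by_cases e0 : c 0 = c 1
    · by_cases e2 : c 2 = c 1
      · exact ⟨6, c 1, g1, by ext i; fin_cases i <;> simp [nv, nz, e0, e2]⟩
      · by_cases e3 : c 2 = -c 1
        · exact ⟨13, c 1, g1, by ext i; fin_cases i <;> simp [nv, nz, e0, e3]⟩
        · -- case (ii)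
          exfalso
          have k1 : 0 < c 1 - c 2 := by
            rcases h12.eq_or_lt with h | h
            · exact absurd h e2
            · linarith
          have k2 : 0 < c 1 + c 2 := by
            rcases h12'.eq_or_lt with h | h
            · exact absurd (by linarith) e3
            · linarith
          refine two (dom x z) (act (Equiv.swap 0 1) 0 (dom x z)) fun v hv hvE => ?_
          obtain ⟨i1, i2, i3, i4, i5⟩ := six h hv
          have j2 := pos_of_mul k1 i2
          have j3 := pos_of_mul k2 i3
          have j4 := pos_of_mul (by linarith) i4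
          have j5 := pos_of_mul (by linarith) i5
          rcases le_total (v 1) (v 0) with l | l
          · left
            exact dom_unique hx hz (hE ▸ hvE) l (by linarith) (by linarith)
          · right
            have hw := hEinv.mem (Equiv.swap 0 1) 0 hvE
            have hd := dom_unique hx hz (hE ▸ hw) (by simpa [act, tv, tz] using l)
              (by
                have e02 : (Equiv.swap (0 : Fin 3) 1) 2 = 2 := by decide
                simp only [act, tv, tz, Equiv.swap_apply_right, e02]
                simp
                linarith)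
              (by
                have e02 : (Equiv.swap (0 : Fin 3) 1) 2 = 2 := by decide
                simp only [act, tv, tz, Equiv.swap_apply_right, e02]
                simp
                linarith)
            rw [← hd]
            have e02 : (Equiv.swap (0 : Fin 3) 1) 2 = 2 := by decide
            ext i
            fin_cases i <;> simp [act, tv, tz, e02]
    · have k0 : 0 < c 0 - c 1 := by
        rcases h01.eq_or_lt with h | h
        · exact absurd h.symm e0
        · linarith
      exfalso
      by_cases e2 : c 2 = c 1
      · -- case (iii)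
        refine two (dom x z) (act (Equiv.swap 1 2) 0 (dom x z)) fun v hv hvE => ?_
        obtain ⟨i1, i2, i3, i4, i5⟩ := six h hv
        have j1 := pos_of_mul k0 i1
        have j3 := pos_of_mul (by linarith) i3
        have j4 := pos_of_mul (by linarith) i4
        rcases le_total (v 2) (v 1) with l | l
        · left
          exact dom_unique hx hz (hE ▸ hvE) (by linarith) l (by linarith)
        · right
          have hw := hEinv.mem (Equiv.swap 1 2) 0 hvE
          have e10 : (Equiv.swap (1 : Fin 3) 2) 0 = 0 := by decide
          have hd := dom_unique hx hz (hE ▸ hw)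
            (by
              simp only [act, tv, tz, Equiv.swap_apply_left, e10]
              simp
              linarith)
            (by
              simp only [act, tv, tz, Equiv.swap_apply_left, Equiv.swap_apply_right]
              simp
              linarith)
            (by
              simp only [act, tv, tz, Equiv.swap_apply_left, Equiv.swap_apply_right]
              simp
              linarith)
          rw [← hd]
          ext i
          fin_cases i <;> simp [act, tv, tz, e10]
      · by_cases e3 : c 2 = -c 1
        · -- case (iii')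
          refine two (dom x z) (act (Equiv.swap 1 2) 1 (dom x z)) fun v hv hvE => ?_
          obtain ⟨i1, i2, i3, i4, i5⟩ := six h hv
          have j1 := pos_of_mul k0 i1
          have j2 := pos_of_mul (by linarith) i2
          have j5 := pos_of_mul (by linarith) i5
          rcases le_total 0 (v 1 + v 2) with l | l
          · left
            exact dom_unique hx hz (hE ▸ hvE) (by linarith) (by linarith) (by linarith)
          · right
            have hw := hEinv.mem (Equiv.swap 1 2) 1 hvE
            have e10 : (Equiv.swap (1 : Fin 3) 2) 0 = 0 := by decide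
            have hd := dom_unique hx hz (hE ▸ hw)
              (by
                simp only [act, tv, tz, Equiv.swap_apply_left, e10]
                simp
                linarith)
              (by
                simp only [act, tv, tz, Equiv.swap_apply_left, Equiv.swap_apply_right]
                simp
                linarith)
              (by
                simp only [act, tv, tz, Equiv.swap_apply_left, Equiv.swap_apply_right]
                simp
                linarith)
            rw [← hd]
            ext i
            fin_cases i <;> simp [act, tv, tz, e10]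
        · -- case (i)
          have k1 : 0 < c 1 - c 2 := by
            rcases h12.eq_or_lt with h | h
            · exact absurd h e2
            · linarith
          have k2 : 0 < c 1 + c 2 := by
            rcases h12'.eq_or_lt with h | h
            · exact absurd (by linarith) e3
            · linarith
          refine two (dom x z) (dom x z) fun v hv hvE => ?_
          obtain ⟨i1, i2, i3, i4, i5⟩ := six h hv
          have j1 := pos_of_mul k0 i1
          have j2 := pos_of_mul k1 i2
          have j3 := pos_of_mul k2 i3
          left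
          exact dom_unique hx hz (hE ▸ hvE) (by linarith) (by linarith) (by linarith)

lemma exists_chamber (c : V) : ∃ (σ : Equiv.Perm (Fin 3)) (k : Fin 4),
    act σ k c 1 ≤ act σ k c 0 ∧ act σ k c 2 ≤ act σ k c 1 ∧ -act σ k c 2 ≤ act σ k c 1 := by
  have hsort : ∃ σ : Equiv.Perm (Fin 3), |c (σ 1)| ≤ |c (σ 0)| ∧ |c (σ 2)| ≤ |c (σ 1)| := by
    have hp : ∀ i j k : Fin 3, i ≠ j → j ≠ k → i ≠ k → ∃ σ : Equiv.Perm (Fin 3),
        σ 0 = i ∧ σ 1 = j ∧ σ 2 = k := by decide
    have : ∀ i j k : Fin 3, i ≠ j → j ≠ k → i ≠ k → |c j| ≤ |c i| → |c k| ≤ |c j| →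
        ∃ σ : Equiv.Perm (Fin 3), |c (σ 1)| ≤ |c (σ 0)| ∧ |c (σ 2)| ≤ |c (σ 1)| := by
      intro i j k h1 h2 h3 h4 h5
      obtain ⟨σ, e0, e1, e2⟩ := hp i j k h1 h2 h3
      exact ⟨σ, by rw [e0, e1]; exact h4, by rw [e1, e2]; exact h5⟩
    rcases le_total |c 0| |c 1| with a | a <;> rcases le_total |c 1| |c 2| with b | b <;>
      rcases le_total |c 0| |c 2| with d | d
    · exact this 2 1 0 (by decide) (by decide) (by decide) b a
    · exact this 2 1 0 (by decide) (by decide) (by decide) b a
    · exact this 1 2 0 (by decide) (by decide) (by decide) b d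
    · exact this 1 0 2 (by decide) (by decide) (by decide) a d
    · exact this 2 0 1 (by decide) (by decide) (by decide) d a
    · exact this 0 2 1 (by decide) (by decide) (by decide) d b
    · exact this 0 1 2 (by decide) (by decide) (by decide) a b
    · exact this 0 1 2 (by decide) (by decide) (by decide) a b
  obtain ⟨σ, h1, h2⟩ := hsort
  have a2 := abs_le.1 h2
  have b2 := le_abs_self (c (σ 2))
  have b2' := neg_abs_le (c (σ 2))
  rcases le_total 0 (c (σ 0)) with s0 | s0 <;> rcases le_total 0 (c (σ 1)) with s1 | s1
  · refine ⟨σ, 0, ?_⟩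
    rw [abs_of_nonneg s0, abs_of_nonneg s1] at h1
    rw [abs_of_nonneg s1] at h2
    simp only [act, tv, tz]
    simp
    exact ⟨h1, by linarith, by linarith⟩
  · refine ⟨σ, 1, ?_⟩
    rw [abs_of_nonneg s0, abs_of_nonpos s1] at h1
    rw [abs_of_nonpos s1] at h2
    simp only [act, tv, tz]
    simp
    exact ⟨by linarith, by linarith, by linarith⟩
  · refine ⟨σ, 2, ?_⟩
    rw [abs_of_nonpos s0, abs_of_nonneg s1] at h1
    rw [abs_of_nonneg s1] at h2
    simp only [act, tv, tz]
    simp
    exact ⟨by linarith, by linarith, by linarith⟩
  · refine ⟨σ, 3, ?_⟩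
    rw [abs_of_nonpos s0, abs_of_nonpos s1] at h1
    rw [abs_of_nonpos s1] at h2
    simp only [act, tv, tz]
    simp
    exact ⟨by linarith, by linarith, by linarith⟩

lemma face_smul (P : Set V) {t : ℝ} (ht : 0 < t) (c : V) : face P (t • c) = face P c := by
  ext v
  have h : ∀ w : V, dot (t • c) w = t * dot c w := fun w => by
    simp only [dot, Pi.smul_apply, smul_eq_mul]; ring
  simp only [face, h, mem_ofPred_eq]
  constructor
  · rintro ⟨h1, h2⟩
    exact ⟨h1, fun y hy => le_of_mul_le_mul_left (h2 y hy) ht⟩
  · rintro ⟨h1, h2⟩
    exact ⟨h1, fun y hy => mul_le_mul_of_nonneg_left (h2 y hy) ht.le⟩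

/-- a polytope with twelve vertices and the full symmetry of the tetrahedron has at most 14
facets -/
theorem full_le {P : Set V} (hP : IsPolytope P) (hsym : ∀ A ∈ Sym tet, A.mulVec '' P = P)
    (hc : (P.extremePoints ℝ).ncard = 12) : (facets P).ncard ≤ 14 := by
  classical
  obtain ⟨⟨s, hs, rfl⟩, hint⟩ := hP
  have h : Inv (convexHull ℝ s) := inv_of_sym hsym
  obtain ⟨x, z, hx, hz, hE⟩ := exists_orb h (convex_convexHull ℝ s) hc
  have hsub : facets (convexHull ℝ s) ⊆
      ((Finset.univ.image fun m : Fin 14 => face (convexHull ℝ s) (nv m) :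
        Finset (Set V)) : Set (Set V)) := by
    rintro F ⟨hF, hd⟩
    obtain ⟨c, rfl⟩ := exists_face hF (nonempty_of_finrank hd)
    obtain ⟨σ, k, g1, g2, g3⟩ := exists_chamber c
    have hN : NN (act σ k c) := chamber_face hs h hint hx hz hE g1 g2 g3 (by
      rw [face_act h, finrank_act]
      exact hd)
    obtain ⟨m, t, ht, hm⟩ := special_act σ k hN
    rw [Finset.coe_image]
    exact ⟨m, Finset.mem_coe.2 (Finset.mem_univ m), by rw [hm, face_smul _ ht]⟩
  have h1 := Set.ncard_le_ncard hsub (Finset.finite_toSet _)
  rw [Set.ncard_coe_finset] at h1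
  refine h1.trans (Finset.card_image_le.trans ?_)
  simp

end Pool.Agent.R358.FV
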