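import Mathlib

/-! General facts on faces of polytopes in three-dimensional space. -/

set_option autoImplicit false

namespace Pool.Agent.R358.FV

open Set

/-- three-dimensional space -/
abbrev V := Fin 3 → ℝ

/-- the facets (two-dimensional exposed faces) of a convex set in three-dimensional space -/
def facets (P : Set V) : Set (Set V) :=
  {F | IsExposed ℝ P F ∧ Module.finrank ℝ (vectorSpan ℝ F) = 2}

/-- a three-dimensional polytope -/
def IsPolytope (P : Set V) : Prop :=
  (∃ s : Set V, s.Finite ∧ P = convexHull ℝ s) ∧ (interior P).Nonempty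

/-- the symmetry group in `O(3)` of a set of points -/
def Sym (S : Set V) : Set (Matrix (Fin 3) (Fin 3) ℝ) :=
  {A | A ∈ Matrix.orthogonalGroup (Fin 3) ℝ ∧ A.mulVec '' S = S}

/-- the rotations in the symmetry group of a set of points -/
def Rot (S : Set V) : Set (Matrix (Fin 3) (Fin 3) ℝ) :=
  {A | A ∈ Sym S ∧ A.det = 1}

/-- the pairs (number of vertices, number of facets) of the polytopes which are mapped to themselves
by all the elements of `G` -/
def fPairs (G : Set (Matrix (Fin 3) (Fin 3) ℝ)) : Set (ℕ × ℕ) :=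
  {v | ∃ P : Set V, IsPolytope P ∧ (∀ A ∈ G, A.mulVec '' P = P) ∧
    v = ((extremePoints ℝ P).ncard, (facets P).ncard)}

/-- the inner product -/
def dot (c v : V) : ℝ := c 0 * v 0 + c 1 * v 1 + c 2 * v 2

/-- the points of `P` where the functional `c` is maximal -/
def face (P : Set V) (c : V) : Set V := {x | x ∈ P ∧ ∀ y ∈ P, dot c y ≤ dot c x}

lemma dot_eq (l : StrongDual ℝ V) : ∃ c : V, ∀ v, l v = dot c v := by
  refine ⟨fun i => l (Pi.single i 1), fun v => ?_⟩
  have h : v = v 0 • (Pi.single 0 1 : V) + v 1 • (Pi.single 1 1 : V) + v 2 • (Pi.single 2 1 : V) := by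
    ext i
    fin_cases i <;> simp
  conv_lhs => rw [h]
  simp only [map_add, map_smul, smul_eq_mul, dot]
  ring

/-- the functional of a vector -/
noncomputable def fn (c : V) : StrongDual ℝ V :=
  c 0 • ContinuousLinearMap.proj (R := ℝ) (φ := fun _ : Fin 3 => ℝ) 0
    + c 1 • ContinuousLinearMap.proj (R := ℝ) (φ := fun _ : Fin 3 => ℝ) 1
    + c 2 • ContinuousLinearMap.proj (R := ℝ) (φ := fun _ : Fin 3 => ℝ) 2

lemma fn_apply (c v : V) : fn c v = dot c v := by
  simp [fn, dot]

lemma face_exposed (P : Set V) (c : V) : IsExposed ℝ P (face P c) := by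
  intro _
  refine ⟨fn c, ?_⟩
  ext x
  simp only [face, fn_apply]

lemma exists_face {P F : Set V} (h : IsExposed ℝ P F) (hn : F.Nonempty) : ∃ c, F = face P c := by
  obtain ⟨l, hl⟩ := h hn
  obtain ⟨c, hc⟩ := dot_eq l
  refine ⟨c, ?_⟩
  rw [hl]
  ext x
  simp only [face, hc]

lemma nonempty_of_finrank {F : Set V} (h : Module.finrank ℝ (vectorSpan ℝ F) = 2) : F.Nonempty := by
  by_contra hne
  rw [not_nonempty_iff_eq_empty] at hne
  rw [hne, vectorSpan_empty, finrank_bot] at h
  omega

lemma hull_extreme {s : Set V} (hs : s.Finite) :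
    convexHull ℝ ((convexHull ℝ s).extremePoints ℝ) = convexHull ℝ s := by
  have hfin : ((convexHull ℝ s).extremePoints ℝ).Finite := hs.subset extremePoints_convexHull_subset
  have h := closure_convexHull_extremePoints (hs.isCompact_convexHull ℝ) (convex_convexHull ℝ s)
  rw [(hfin.isClosed_convexHull ℝ).closure_eq] at h
  exact h

lemma face_hull {s : Set V} (hs : s.Finite) {F : Set V} (hF : IsExposed ℝ (convexHull ℝ s) F) :
    convexHull ℝ (F ∩ (convexHull ℝ s).extremePoints ℝ) = F := by
  have hfin : ((convexHull ℝ s).extremePoints ℝ).Finite := hs.subset extremePoints_convexHull_subset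
  have hc : IsCompact F := hF.isCompact (hs.isCompact_convexHull ℝ)
  have hconv : Convex ℝ F := hF.convex (convex_convexHull ℝ s)
  have h := closure_convexHull_extremePoints hc hconv
  rw [hF.isExtreme.extremePoints_eq] at h
  rw [((hfin.subset inter_subset_right).isClosed_convexHull ℝ).closure_eq] at h
  exact h

lemma facets_finite {s : Set V} (hs : s.Finite) : (facets (convexHull ℝ s)).Finite := by
  have hfin : ((convexHull ℝ s).extremePoints ℝ).Finite := hs.subset extremePoints_convexHull_subset
  refine Set.Finite.of_injOn (f := fun F => F ∩ (convexHull ℝ s).extremePoints ℝ)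
    (t := 𝒫 ((convexHull ℝ s).extremePoints ℝ)) ?_ ?_ hfin.finite_subsets
  · intro F _
    exact inter_subset_right
  · intro F hF G hG h
    rw [← face_hull hs hF.1, ← face_hull hs hG.1]
    exact congrArg _ h

/-- a face all whose vertices are among two points has dimension at most one -/
lemma dim_le_one {s : Set V} (hs : s.Finite) {F : Set V} (hF : IsExposed ℝ (convexHull ℝ s) F)
    (p q : V) (h : F ∩ (convexHull ℝ s).extremePoints ℝ ⊆ {p, q}) :
    Module.finrank ℝ (vectorSpan ℝ F) ≤ 1 := by
  have h1 : vectorSpan ℝ F ≤ vectorSpan ℝ ({p, q} : Set V) := by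
    rw [← direction_affineSpan, ← direction_affineSpan, ← face_hull hs hF, affineSpan_convexHull]
    exact AffineSubspace.direction_le (affineSpan_mono ℝ h)
  have h2 := (collinear_iff_finrank_le_one (k := ℝ)).1 (collinear_pair ℝ p q)
  exact (Submodule.finrank_mono h1).trans h2

end Pool.Agent.R358.FV
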