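import Pool.Agent.R358.FV.Face

/-! An icosahedron with the rotational symmetry of the tetrahedron. -/

set_option autoImplicit false

namespace Pool.Agent.R358.FV

open Set

def wz : Fin 12 → Fin 3 → ℤ :=
  ![![0, 1, 2], ![0, 1, -2], ![0, -1, 2], ![0, -1, -2],
    ![1, 2, 0], ![1, -2, 0], ![-1, 2, 0], ![-1, -2, 0],
    ![2, 0, 1], ![2, 0, -1], ![-2, 0, 1], ![-2, 0, -1]]

def wv (j : Fin 12) : V := fun i => (wz j i : ℝ)

/-- the polytope -/
def P0 : Set V := convexHull ℝ (range wv)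

def nt : Fin 20 → Fin 3 → ℤ :=
  ![![1, 1, 1], ![1, 1, -1], ![1, -1, 1], ![1, -1, -1],
    ![-1, 1, 1], ![-1, 1, -1], ![-1, -1, 1], ![-1, -1, -1],
    ![1, 0, 2], ![1, 0, -2], ![-1, 0, 2], ![-1, 0, -2],
    ![2, 1, 0], ![2, -1, 0], ![-2, 1, 0], ![-2, -1, 0],
    ![0, 2, 1], ![0, 2, -1], ![0, -2, 1], ![0, -2, -1]]

def ntv (m : Fin 20) : V := fun i => (nt m i : ℝ)

def dz (c v : Fin 3 → ℤ) : ℤ := c 0 * v 0 + c 1 * v 1 + c 2 * v 2

def val (m : Fin 20) : ℤ := if m.val < 8 then 3 else 4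

lemma val_le : ∀ (m : Fin 20) (j : Fin 12), dz (nt m) (wz j) ≤ val m := by decide +kernel

lemma val_eq : ∀ (m : Fin 20), ∃ a b c : Fin 12, dz (nt m) (wz a) = val m ∧
    dz (nt m) (wz b) = val m ∧ dz (nt m) (wz c) = val m ∧
    ((wz b 0 - wz a 0) * (wz c 1 - wz a 1) - (wz b 1 - wz a 1) * (wz c 0 - wz a 0) ≠ 0 ∨
     (wz b 1 - wz a 1) * (wz c 2 - wz a 2) - (wz b 2 - wz a 2) * (wz c 1 - wz a 1) ≠ 0 ∨
     (wz b 0 - wz a 0) * (wz c 2 - wz a 2) - (wz b 2 - wz a 2) * (wz c 0 - wz a 0) ≠ 0) := by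
  decide +kernel

lemma val_sep : ∀ (m n : Fin 20), m ≠ n → ∃ j : Fin 12, dz (nt m) (wz j) = val m ∧
    dz (nt n) (wz j) ≠ val n := by decide +kernel

lemma dot_cast (m : Fin 20) (j : Fin 12) : dot (ntv m) (wv j) = (dz (nt m) (wz j) : ℝ) := by
  simp only [dot, ntv, wv, dz]
  push_cast
  ring

lemma mem_P0 (j : Fin 12) : wv j ∈ P0 := subset_convexHull ℝ _ ⟨j, rfl⟩

lemma fin_W : (range wv).Finite := Set.finite_range _

lemma dot_le (m : Fin 20) {p : V} (hp : p ∈ P0) : dot (ntv m) p ≤ val m := by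
  have hconv : Convex ℝ {p : V | dot (ntv m) p ≤ val m} := by
    intro x hx y hy a b ha hb hab
    have hx' : dot (ntv m) x ≤ val m := hx
    have hy' : dot (ntv m) y ≤ val m := hy
    have h1 : dot (ntv m) (a • x + b • y) = a * dot (ntv m) x + b * dot (ntv m) y := by
      simp only [dot, Pi.add_apply, Pi.smul_apply, smul_eq_mul]; ring
    change dot (ntv m) (a • x + b • y) ≤ val m
    rw [h1]
    calc a * dot (ntv m) x + b * dot (ntv m) y ≤ a * val m + b * val m := by gcongr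
      _ = val m := by rw [← add_mul, hab, one_mul]
  refine convexHull_min (t := {p : V | dot (ntv m) p ≤ val m}) ?_ hconv hp
  rintro _ ⟨j, rfl⟩
  change dot (ntv m) (wv j) ≤ val m
  rw [dot_cast]
  exact_mod_cast val_le m j

lemma mem_face_iff (m : Fin 20) (j : Fin 12) :
    wv j ∈ face P0 (ntv m) ↔ dz (nt m) (wz j) = val m := by
  constructor
  · rintro ⟨_, h⟩
    obtain ⟨a, _, _, ha, _⟩ := val_eq m
    have h1 := h _ (mem_P0 a)
    rw [dot_cast, dot_cast, ha] at h1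
    have h2 : val m ≤ dz (nt m) (wz j) := by exact_mod_cast h1
    exact le_antisymm (val_le m j) h2
  · intro h
    refine ⟨mem_P0 j, fun y hy => ?_⟩
    rw [dot_cast, h]
    exact dot_le m hy

lemma vectorSpan_le_ker (P : Set V) (c : V) :
    vectorSpan ℝ (face P c) ≤ LinearMap.ker (fn c : V →ₗ[ℝ] ℝ) := by
  rw [vectorSpan_def, Submodule.span_le]
  rintro _ ⟨x, hx, y, hy, rfl⟩
  have h1 := hx.2 y hy.1
  have h2 := hy.2 x hx.1
  change (fn c : V →ₗ[ℝ] ℝ) (x -ᵥ y) = 0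
  have h3 : dot c x = dot c y := le_antisymm h2 h1
  rw [vsub_eq_sub, map_sub]
  change fn c x - fn c y = 0
  rw [fn_apply, fn_apply, h3, sub_self]

lemma facet (m : Fin 20) : face P0 (ntv m) ∈ facets P0 := by
  refine ⟨face_exposed _ _, ?_⟩
  obtain ⟨a, b, c, ha, hb, hc, hne⟩ := val_eq m
  have hle : Module.finrank ℝ (vectorSpan ℝ (face P0 (ntv m))) ≤ 2 := by
    have h1 : LinearMap.ker (fn (ntv m) : V →ₗ[ℝ] ℝ) < ⊤ := by
      rw [lt_top_iff_ne_top]
      intro h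
      have h2 : ∀ v : V, dot (ntv m) v = 0 := fun v => by
        have : v ∈ LinearMap.ker (fn (ntv m) : V →ₗ[ℝ] ℝ) := by rw [h]; trivial
        rw [← fn_apply]
        exact this
      have h3 := h2 (wv a)
      rw [dot_cast, ha] at h3
      have h4 : val m = 0 := by exact_mod_cast h3
      unfold val at h4
      split_ifs at h4 <;> omega
    have h2 := Submodule.finrank_mono (vectorSpan_le_ker P0 (ntv m))
    have h3 := Submodule.finrank_lt h1.ne
    have h4 : Module.finrank ℝ V = 3 := by simp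
    have h5 : Module.finrank ℝ (vectorSpan ℝ (face P0 (ntv m))) < Module.finrank ℝ V :=
      lt_of_le_of_lt h2 h3
    rw [h4] at h5
    omega
  have hge : ¬ Module.finrank ℝ (vectorSpan ℝ (face P0 (ntv m))) ≤ 1 := by
    intro h
    have hcol := (collinear_iff_finrank_le_one (k := ℝ)).2 h
    rw [collinear_iff_of_mem ((mem_face_iff m a).2 ha)] at hcol
    obtain ⟨v, hv⟩ := hcol
    obtain ⟨r, hr⟩ := hv _ ((mem_face_iff m b).2 hb)
    obtain ⟨t, ht⟩ := hv _ ((mem_face_iff m c).2 hc)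
    have hr' : ∀ i, (wz b i : ℝ) = r * v i + wz a i := fun i => congrFun hr i
    have ht' : ∀ i, (wz c i : ℝ) = t * v i + wz a i := fun i => congrFun ht i
    have cross : ∀ i j : Fin 3, (wz b i - wz a i) * (wz c j - wz a j)
        - (wz b j - wz a j) * (wz c i - wz a i) = 0 := by
      intro i j
      have : ((wz b i - wz a i : ℝ)) * (wz c j - wz a j)
          - (wz b j - wz a j) * (wz c i - wz a i) = 0 := by
        rw [hr' i, hr' j, ht' i, ht' j]
        ring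
      exact_mod_cast this
    rcases hne with h1 | h1 | h1
    · exact h1 (cross 0 1)
    · exact h1 (cross 1 2)
    · exact h1 (cross 0 2)
  omega

lemma facets_ge : 20 ≤ (facets P0).ncard := by
  have hinj : Function.Injective (fun m : Fin 20 => face P0 (ntv m)) := by
    intro m n hmn
    by_contra hne
    obtain ⟨j, h1, h2⟩ := val_sep m n hne
    have h3 := (mem_face_iff m j).2 h1
    have hmn' : face P0 (ntv m) = face P0 (ntv n) := hmn
    rw [hmn'] at h3
    exact h2 ((mem_face_iff n j).1 h3)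
  have hsub : range (fun m : Fin 20 => face P0 (ntv m)) ⊆ facets P0 := by
    rintro _ ⟨m, rfl⟩
    exact facet m
  have h1 := Set.ncard_le_ncard hsub (facets_finite fin_W)
  rw [Set.ncard_range_of_injective hinj, Nat.card_eq_fintype_card, Fintype.card_fin] at h1
  exact h1

/-! ### vertices -/

lemma wz_sq : ∀ j : Fin 12, dz (wz j) (wz j) = 5 := by decide

lemma wz_inj : Function.Injective wz := by decide

lemma wv_inj : Function.Injective wv := by
  intro a b h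
  apply wz_inj
  ext i
  have := congrFun h i
  simp only [wv] at this
  exact_mod_cast this

lemma sq_le {p : V} (hp : p ∈ P0) : p 0 ^ 2 + p 1 ^ 2 + p 2 ^ 2 ≤ 5 := by
  have hconv : Convex ℝ {p : V | p 0 ^ 2 + p 1 ^ 2 + p 2 ^ 2 ≤ 5} := by
    intro x hx y hy a b ha hb hab
    have hx' : x 0 ^ 2 + x 1 ^ 2 + x 2 ^ 2 ≤ 5 := hx
    have hy' : y 0 ^ 2 + y 1 ^ 2 + y 2 ^ 2 ≤ 5 := hy
    have hsq : ∀ u v : ℝ, (a * u + b * v) ^ 2 ≤ a * u ^ 2 + b * v ^ 2 := by
      intro u v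
      have hb' : b = 1 - a := by linarith
      have hab' : 0 ≤ a * b := mul_nonneg ha hb
      have : a * u ^ 2 + b * v ^ 2 - (a * u + b * v) ^ 2 = a * b * (u - v) ^ 2 := by
        rw [hb']; ring
      nlinarith [mul_nonneg hab' (sq_nonneg (u - v))]
    change (a • x + b • y) 0 ^ 2 + (a • x + b • y) 1 ^ 2 + (a • x + b • y) 2 ^ 2 ≤ 5
    simp only [Pi.add_apply, Pi.smul_apply, smul_eq_mul]
    have h0 := hsq (x 0) (y 0)
    have h1 := hsq (x 1) (y 1)
    have h2 := hsq (x 2) (y 2)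
    nlinarith
  refine convexHull_min (t := {p : V | p 0 ^ 2 + p 1 ^ 2 + p 2 ^ 2 ≤ 5}) ?_ hconv hp
  rintro _ ⟨j, rfl⟩
  change (wv j) 0 ^ 2 + (wv j) 1 ^ 2 + (wv j) 2 ^ 2 ≤ 5
  have h := wz_sq j
  simp only [dz] at h
  have h' : (wz j 0 : ℝ) * wz j 0 + wz j 1 * wz j 1 + wz j 2 * wz j 2 = 5 := by exact_mod_cast h
  simp only [wv]
  linarith

lemma ext_P0 : P0.extremePoints ℝ = range wv := by
  apply Subset.antisymm
  · exact extremePoints_convexHull_subset
  · rintro _ ⟨j, rfl⟩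
    rw [mem_extremePoints]
    refine ⟨mem_P0 j, ?_⟩
    rintro x hx y hy ⟨a, b, ha, hb, hab, h⟩
    have hw : (wv j) 0 ^ 2 + (wv j) 1 ^ 2 + (wv j) 2 ^ 2 = 5 := by
      have h := wz_sq j
      simp only [dz] at h
      have h' : (wz j 0 : ℝ) * wz j 0 + wz j 1 * wz j 1 + wz j 2 * wz j 2 = 5 := by
        exact_mod_cast h
      simp only [wv]
      linarith
    have e0 : a * x 0 + b * y 0 = wv j 0 := by rw [← h]; rfl
    have e1 : a * x 1 + b * y 1 = wv j 1 := by rw [← h]; rfl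
    have e2 : a * x 2 + b * y 2 = wv j 2 := by rw [← h]; rfl
    have sx := sq_le hx
    have sy := sq_le hy
    have dx : 2 * dot (wv j) x ≤ 10 - ((wv j 0 - x 0) ^ 2 + (wv j 1 - x 1) ^ 2
        + (wv j 2 - x 2) ^ 2) := by
      simp only [dot]
      nlinarith
    have dy : 2 * dot (wv j) y ≤ 10 - ((wv j 0 - y 0) ^ 2 + (wv j 1 - y 1) ^ 2
        + (wv j 2 - y 2) ^ 2) := by
      simp only [dot]
      nlinarith
    have hsum : a * dot (wv j) x + b * dot (wv j) y = 5 := by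
      rw [← hw]
      simp only [dot]
      linear_combination wv j 0 * e0 + wv j 1 * e1 + wv j 2 * e2
    set X := (wv j 0 - x 0) ^ 2 + (wv j 1 - x 1) ^ 2 + (wv j 2 - x 2) ^ 2 with hX
    set Y := (wv j 0 - y 0) ^ 2 + (wv j 1 - y 1) ^ 2 + (wv j 2 - y 2) ^ 2 with hY
    have hX0 : 0 ≤ X := by positivity
    have hY0 : 0 ≤ Y := by positivity
    have hle : a * X + b * Y ≤ 0 := by nlinarith
    have hX1 : X = 0 := by
      have := mul_nonneg ha.le hX0
      have := mul_nonneg hb.le hY0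
      have h3 : a * X = 0 := by linarith
      rcases mul_eq_zero.1 h3 with h | h
      · exact absurd h ha.ne'
      · exact h
    have hY1 : Y = 0 := by
      have := mul_nonneg ha.le hX0
      have := mul_nonneg hb.le hY0
      have h3 : b * Y = 0 := by linarith
      rcases mul_eq_zero.1 h3 with h | h
      · exact absurd h hb.ne'
      · exact h
    have hfin : ∀ u : V, (wv j 0 - u 0) ^ 2 + (wv j 1 - u 1) ^ 2 + (wv j 2 - u 2) ^ 2 = 0 →
        u = wv j := by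
      intro u hu
      have q0 := sq_nonneg (wv j 0 - u 0)
      have q1 := sq_nonneg (wv j 1 - u 1)
      have q2 := sq_nonneg (wv j 2 - u 2)
      have h0 : wv j 0 - u 0 = 0 := by
        have : (wv j 0 - u 0) ^ 2 = 0 := by linarith
        exact (pow_eq_zero_iff two_ne_zero).1 this
      have h1 : wv j 1 - u 1 = 0 := by
        have : (wv j 1 - u 1) ^ 2 = 0 := by linarith
        exact (pow_eq_zero_iff two_ne_zero).1 this
      have h2 : wv j 2 - u 2 = 0 := by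
        have : (wv j 2 - u 2) ^ 2 = 0 := by linarith
        exact (pow_eq_zero_iff two_ne_zero).1 this
      ext i
      fin_cases i
      · simp only [Fin.zero_eta]; linarith
      · simp only [Fin.mk_one]; linarith
      · simp only [Fin.reduceFinMk]; linarith
    exact ⟨hfin x hX1, hfin y hY1⟩

lemma ncard_ext : (P0.extremePoints ℝ).ncard = 12 := by
  rw [ext_P0, Set.ncard_range_of_injective wv_inj, Nat.card_eq_fintype_card, Fintype.card_fin]

lemma interior_P0 : (interior P0).Nonempty := by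
  unfold P0
  rw [interior_convexHull_nonempty_iff_affineSpan_eq_top]
  rw [AffineSubspace.affineSpan_eq_top_iff_vectorSpan_eq_top_of_nonempty ℝ V V
    (Set.range_nonempty wv)]
  rw [eq_top_iff]
  intro v _
  have h0 : wv 4 -ᵥ wv 6 ∈ vectorSpan ℝ (range wv) :=
    vsub_mem_vectorSpan ℝ ⟨4, rfl⟩ ⟨6, rfl⟩
  have h1 : wv 0 -ᵥ wv 2 ∈ vectorSpan ℝ (range wv) :=
    vsub_mem_vectorSpan ℝ ⟨0, rfl⟩ ⟨2, rfl⟩
  have h2 : wv 8 -ᵥ wv 9 ∈ vectorSpan ℝ (range wv) :=
    vsub_mem_vectorSpan ℝ ⟨8, rfl⟩ ⟨9, rfl⟩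
  have h := Submodule.add_mem _ (Submodule.add_mem _ (Submodule.smul_mem _ (v 0 / 2) h0)
    (Submodule.smul_mem _ (v 1 / 2) h1)) (Submodule.smul_mem _ (v 2 / 2) h2)
  convert h using 1
  ext i
  fin_cases i <;> simp [wv, wz] <;> ring

/-! ### symmetry -/

lemma rot_dec : ∀ π : Equiv.Perm (Fin 4),
    ((tz (π 0) 0 + tz (π 1) 0) * (tz (π 0) 1 + tz (π 2) 1) * (tz (π 0) 2 + tz (π 3) 2)
    - (tz (π 0) 0 + tz (π 1) 0) * (tz (π 0) 1 + tz (π 3) 1) * (tz (π 0) 2 + tz (π 2) 2)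
    - (tz (π 0) 0 + tz (π 2) 0) * (tz (π 0) 1 + tz (π 1) 1) * (tz (π 0) 2 + tz (π 3) 2)
    + (tz (π 0) 0 + tz (π 2) 0) * (tz (π 0) 1 + tz (π 3) 1) * (tz (π 0) 2 + tz (π 1) 2)
    + (tz (π 0) 0 + tz (π 3) 0) * (tz (π 0) 1 + tz (π 1) 1) * (tz (π 0) 2 + tz (π 2) 2)
    - (tz (π 0) 0 + tz (π 3) 0) * (tz (π 0) 1 + tz (π 2) 1) * (tz (π 0) 2 + tz (π 1) 2) = 8) →
    ∀ j : Fin 12, ∃ l : Fin 12, ∀ i : Fin 3,
      2 * wz l i = wz j 0 * (tz (π 0) i + tz (π 1) i) + wz j 1 * (tz (π 0) i + tz (π 2) i)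
        + wz j 2 * (tz (π 0) i + tz (π 3) i) := by
  decide +kernel

lemma tv_inj : Function.Injective tv := by
  intro a b h
  have hz : Function.Injective tz := by decide
  apply hz
  ext i
  have := congrFun h i
  simp only [tv] at this
  exact_mod_cast this

lemma orth_inj {A : Matrix (Fin 3) (Fin 3) ℝ} (hA : A ∈ Matrix.orthogonalGroup (Fin 3) ℝ) :
    Function.Injective A.mulVec := by
  rw [Matrix.mem_orthogonalGroup_iff'] at hA
  intro x y h
  have h1 : (A.transpose).mulVec (A.mulVec x) = (A.transpose).mulVec (A.mulVec y) := by rw [h]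
  rw [Matrix.mulVec_mulVec, Matrix.mulVec_mulVec, hA, Matrix.one_mulVec, Matrix.one_mulVec] at h1
  exact h1

lemma rot_P0 {A : Matrix (Fin 3) (Fin 3) ℝ} (hA : A ∈ Rot tet) : A.mulVec '' P0 = P0 := by
  obtain ⟨⟨horth, htet⟩, hdet⟩ := hA
  have hinj := orth_inj horth
  have hex : ∀ m : Fin 4, ∃ n : Fin 4, A.mulVec (tv m) = tv n := by
    intro m
    have : A.mulVec (tv m) ∈ tet := by
      rw [← htet]
      exact ⟨tv m, by rw [tet_eq]; exact ⟨m, rfl⟩, rfl⟩
    rw [tet_eq] at this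
    obtain ⟨n, hn⟩ := this
    exact ⟨n, hn.symm⟩
  choose f hf using hex
  have hfinj : Function.Injective f := by
    intro a b hab
    apply tv_inj
    apply hinj
    rw [hf, hf, hab]
  set π : Equiv.Perm (Fin 4) := Equiv.ofBijective f (Finite.injective_iff_bijective.1 hfinj) with hπ
  have hπf : ∀ m, A.mulVec (tv m) = tv (π m) := hf
  have row : ∀ (m : Fin 4) (i : Fin 3), A i 0 * tz m 0 + A i 1 * tz m 1 + A i 2 * tz m 2
      = tz (π m) i := by
    intro m i
    have := congrFun (hπf m) i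
    rw [Matrix.mulVec, dotProduct, Fin.sum_univ_three] at this
    exact this
  have c0 : ∀ i, 2 * A i 0 = tz (π 0) i + tz (π 1) i := by
    intro i
    have r0 := row 0 i
    have r1 := row 1 i
    simp [tz] at r0 r1 ⊢
    linarith
  have c1 : ∀ i, 2 * A i 1 = tz (π 0) i + tz (π 2) i := by
    intro i
    have r0 := row 0 i
    have r1 := row 2 i
    simp [tz] at r0 r1 ⊢
    linarith
  have c2 : ∀ i, 2 * A i 2 = tz (π 0) i + tz (π 3) i := by
    intro i
    have r0 := row 0 i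
    have r1 := row 3 i
    simp [tz] at r0 r1 ⊢
    linarith
  have hdet8 := hdet
  rw [Matrix.det_fin_three] at hdet8
  have hmap := rot_dec π (by
    have : (((tz (π 0) 0 : ℝ) + tz (π 1) 0) * (tz (π 0) 1 + tz (π 2) 1) * (tz (π 0) 2 + tz (π 3) 2)
    - (tz (π 0) 0 + tz (π 1) 0) * (tz (π 0) 1 + tz (π 3) 1) * (tz (π 0) 2 + tz (π 2) 2)
    - (tz (π 0) 0 + tz (π 2) 0) * (tz (π 0) 1 + tz (π 1) 1) * (tz (π 0) 2 + tz (π 3) 2)
    + (tz (π 0) 0 + tz (π 2) 0) * (tz (π 0) 1 + tz (π 3) 1) * (tz (π 0) 2 + tz (π 1) 2)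
    + (tz (π 0) 0 + tz (π 3) 0) * (tz (π 0) 1 + tz (π 1) 1) * (tz (π 0) 2 + tz (π 2) 2)
    - (tz (π 0) 0 + tz (π 3) 0) * (tz (π 0) 1 + tz (π 2) 1) * (tz (π 0) 2 + tz (π 1) 2) = 8) := by
      rw [← c0 0, ← c0 1, ← c0 2, ← c1 0, ← c1 1, ← c1 2, ← c2 0, ← c2 1, ← c2 2]
      linear_combination 8 * hdet8
    exact_mod_cast this)
  have hW : A.mulVec '' range wv = range wv := by
    have hsub : A.mulVec '' range wv ⊆ range wv := by
      rintro _ ⟨_, ⟨j, rfl⟩, rfl⟩
      obtain ⟨l, hl⟩ := hmap j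
      refine ⟨l, ?_⟩
      ext i
      rw [Matrix.mulVec, dotProduct, Fin.sum_univ_three]
      have h2 : (2 : ℝ) * wz l i = wz j 0 * (tz (π 0) i + tz (π 1) i)
          + wz j 1 * (tz (π 0) i + tz (π 2) i) + wz j 2 * (tz (π 0) i + tz (π 3) i) := by
        exact_mod_cast hl i
      rw [← c0 i, ← c1 i, ← c2 i] at h2
      simp only [wv]
      linarith
    refine Set.eq_of_subset_of_ncard_le hsub ?_ fin_W
    rw [Set.ncard_image_of_injective _ hinj]
  have h1 : A.mulVec '' P0 = A.mulVecLin '' (convexHull ℝ (range wv)) := rfl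
  rw [h1, LinearMap.image_convexHull]
  have h2 : (A.mulVecLin : V → V) '' range wv = A.mulVec '' range wv := rfl
  rw [h2, hW]
  rfl

theorem rot_ge : ∃ k : ℕ, 20 ≤ k ∧ (12, k) ∈ fPairs (Rot tet) := by
  refine ⟨(facets P0).ncard, facets_ge, P0, ⟨⟨range wv, fin_W, rfl⟩, interior_P0⟩, ?_, ?_⟩
  · intro A hA
    exact rot_P0 hA
  · rw [ncard_ext]

theorem full_not (k : ℕ) (hk : 15 ≤ k) : (12, k) ∉ fPairs (Sym tet) := by
  rintro ⟨P, hP, hsym, hv⟩
  rw [Prod.mk.injEq] at hv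
  have := full_le hP hsym hv.1.symm
  omega

end Pool.Agent.R358.FV
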