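import Pool.Agent.R358.FV.Orb

/-! Polytopes with twelve vertices and the full symmetry group of the tetrahedron: at most fourteen
facets. -/

set_option autoImplicit false

namespace Pool.Agent.R358.FV

open Set

/-- all vertices on special rays is impossible -/
lemma not_all_special {P : Set V} (h : Inv P) (hconv : Convex ℝ P)
    (hc : (P.extremePoints ℝ).ncard = 12)
    (hall : ∀ e ∈ P.extremePoints ℝ, ∃ m : Fin 14, ∃ t : ℝ, 0 < t ∧ e = t • nv m) : False := by
  classical
  set E := P.extremePoints ℝ with hEdef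
  have hE : Inv E := h.extreme
  set D : Finset (Fin 14) := Finset.univ.filter (fun m => ∃ t : ℝ, 0 < t ∧ t • nv m ∈ E) with hD
  have hchoice : ∀ m : Fin 14, ∃ t : ℝ, m ∈ D → (0 < t ∧ t • nv m ∈ E) := by
    intro m
    by_cases hm : m ∈ D
    · obtain ⟨t, ht⟩ := (Finset.mem_filter.1 hm).2
      exact ⟨t, fun _ => ht⟩
    · exact ⟨0, fun hm' => absurd hm' hm⟩
  choose t ht using hchoice
  have himg : E ⊆ ((D.image (fun m => t m • nv m) : Finset V) : Set V) := by
    intro e he
    obtain ⟨m, s, hs, rfl⟩ := hall e he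
    have hm : m ∈ D := Finset.mem_filter.2 ⟨Finset.mem_univ _, s, hs, he⟩
    obtain ⟨htm, htE⟩ := ht m hm
    have hne : s • nv m ≠ 0 := smul_ne_zero hs.ne' (nv_ne_zero m)
    have h1 : (t m / s) • (s • nv m) = t m • nv m := by
      rw [smul_smul, div_mul_cancel₀ _ hs.ne']
    have h2 : t m / s = 1 := ray h hconv he hne (by positivity) (by rw [h1]; exact htE)
    have h3 : t m = s := by
      rw [div_eq_one_iff_eq hs.ne'] at h2
      exact h2
    rw [Finset.coe_image]
    exact ⟨m, hm, by simp only [h3]⟩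
  have hle : 12 ≤ D.card := by
    have h1 := Set.ncard_le_ncard himg (Finset.finite_toSet _)
    rw [Set.ncard_coe_finset] at h1
    have h2 := Finset.card_image_le (s := D) (f := fun m => t m • nv m)
    omega
  by_cases hU : D = Finset.univ
  · have hfin : E.Finite := Set.finite_of_ncard_ne_zero (by omega)
    have hinj : Function.Injective (fun m : Fin 14 => t m • nv m) := by
      intro m n hmn
      exact smul_nv_inj (ht m (by rw [hU]; exact Finset.mem_univ _)).1
        (ht n (by rw [hU]; exact Finset.mem_univ _)).1 hmn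
    have hsub : range (fun m : Fin 14 => t m • nv m) ⊆ E := by
      rintro _ ⟨m, rfl⟩
      exact (ht m (by rw [hU]; exact Finset.mem_univ _)).2
    have h1 := Set.ncard_le_ncard hsub hfin
    rw [Set.ncard_range_of_injective hinj, Nat.card_eq_fintype_card, Fintype.card_fin] at h1
    omega
  · obtain ⟨m, hm⟩ : ∃ m, m ∉ D := by
      by_contra hno
      push Not at hno
      exact hU (Finset.eq_univ_iff_forall.2 hno)
    have hsub : D ⊆ Finset.univ.filter (fun b => blk b ≠ blk m) := by
      intro b hb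
      rw [Finset.mem_filter]
      refine ⟨Finset.mem_univ _, fun hbm => hm ?_⟩
      obtain ⟨hs, hbE⟩ := ht b hb
      obtain ⟨σ, k, hσ⟩ := nz_blk m b hbm.symm
      refine Finset.mem_filter.2 ⟨Finset.mem_univ _, t b, hs, ?_⟩
      have h1 := hE.mem σ k hbE
      convert h1 using 1
      ext i
      simp only [Pi.smul_apply, smul_eq_mul, nv, act, tv, hσ i]
      push_cast
      ring
    have h1 := Finset.card_le_card hsub
    have h2 := blk_card m
    omega

lemma exists_special (e : V) (x : ℝ) (hx : 0 < x) (h : ∀ i, e i = x ∨ e i = -x) :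
    ∃ m : Fin 14, ∃ t : ℝ, 0 < t ∧ e = t • nv m := by
  rcases h 0 with h0 | h0 <;> rcases h 1 with h1 | h1 <;> rcases h 2 with h2 | h2
  · exact ⟨6, x, hx, by ext i; fin_cases i <;> simp [nv, nz, h0, h1, h2]⟩
  · exact ⟨13, x, hx, by ext i; fin_cases i <;> simp [nv, nz, h0, h1, h2]⟩
  · exact ⟨12, x, hx, by ext i; fin_cases i <;> simp [nv, nz, h0, h1, h2]⟩
  · exact ⟨7, x, hx, by ext i; fin_cases i <;> simp [nv, nz, h0, h1, h2]⟩
  · exact ⟨11, x, hx, by ext i; fin_cases i <;> simp [nv, nz, h0, h1, h2]⟩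
  · exact ⟨8, x, hx, by ext i; fin_cases i <;> simp [nv, nz, h0, h1, h2]⟩
  · exact ⟨9, x, hx, by ext i; fin_cases i <;> simp [nv, nz, h0, h1, h2]⟩
  · exact ⟨10, x, hx, by ext i; fin_cases i <;> simp [nv, nz, h0, h1, h2]⟩

lemma special_act {e : V} (σ : Equiv.Perm (Fin 3)) (k : Fin 4)
    (h : ∃ m : Fin 14, ∃ t : ℝ, 0 < t ∧ act σ k e = t • nv m) :
    ∃ m : Fin 14, ∃ t : ℝ, 0 < t ∧ e = t • nv m := by
  obtain ⟨m, t, ht, hm⟩ := h
  obtain ⟨τ, l, h1, h2⟩ := act_inv σ k
  obtain ⟨n, hn⟩ := nz_act τ l m
  refine ⟨n, t, ht, ?_⟩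
  rw [← h2 e, hm]
  ext i
  simp only [act, tv, nv, Pi.smul_apply, smul_eq_mul, hn i]
  push_cast
  ring

/-- the vertices of a polytope with twelve vertices and the symmetry of the tetrahedron -/
lemma exists_orb {P : Set V} (h : Inv P) (hconv : Convex ℝ P)
    (hc : (P.extremePoints ℝ).ncard = 12) :
    ∃ x z : ℝ, 0 < x ∧ z ^ 2 ≠ x ^ 2 ∧ P.extremePoints ℝ = orb x z := by
  set E := P.extremePoints ℝ with hEdef
  have hE : Inv E := h.extreme
  have hfin : E.Finite := Set.finite_of_ncard_ne_zero (by omega)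
  by_contra hno
  have hno' : ∀ x z : ℝ, 0 < x → z ^ 2 ≠ x ^ 2 → ![x, x, z] ∉ E := fun x z hx hz hm =>
    hno ⟨x, z, hx, hz, orb_eq hE hfin hc hx hz hm⟩
  obtain ⟨p, hp, hp0⟩ : ∃ p ∈ E, p ≠ 0 := by
    by_contra hall
    push Not at hall
    have : E ⊆ {0} := fun e he => hall e he
    have h1 := Set.ncard_le_ncard this (Set.finite_singleton _)
    rw [Set.ncard_singleton] at h1
    omega
  have hnz : ∀ e ∈ E, e ≠ 0 := fun e he h0 => by
    rw [h0] at he
    exact ext_ne_zero h hconv hp.1 hp0 he
  -- two equal squares in the first places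
  have key : ∀ e ∈ E, e 0 ^ 2 = e 1 ^ 2 → ∃ m : Fin 14, ∃ t : ℝ, 0 < t ∧ e = t • nv m := by
    intro e he h01
    by_cases h0 : e 0 = 0
    · have h1 : e 1 = 0 := by
        rw [h0] at h01
        have : e 1 ^ 2 = 0 := by linarith
        exact pow_eq_zero_iff (two_ne_zero) |>.1 this
      have h2 : e 2 ≠ 0 := by
        intro h2
        apply hnz e he
        ext i
        fin_cases i <;> simp [h0, h1, h2]
      rcases lt_or_gt_of_ne h2 with h3 | h3
      · exact ⟨5, -e 2, by linarith, by ext i; fin_cases i <;> simp [nv, nz, h0, h1]⟩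
      · exact ⟨4, e 2, h3, by ext i; fin_cases i <;> simp [nv, nz, h0, h1]⟩
    · by_cases h2 : e 2 ^ 2 = e 0 ^ 2
      · refine exists_special e |e 0| (abs_pos.2 h0) fun i => ?_
        have hi : e i ^ 2 = |e 0| ^ 2 := by
          rw [sq_abs]
          fin_cases i
          · rfl
          · exact h01.symm
          · exact h2
        exact sq_eq_sq_iff_eq_or_eq_neg.1 hi
      · exfalso
        rcases sq_eq_sq_iff_eq_or_eq_neg.1 h01 with h1 | h1
        · rcases lt_or_gt_of_ne h0 with h3 | h3
          · have := hE.mem 1 3 he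
            apply hno' (-e 0) (e 2) (by linarith) (by rw [neg_sq]; exact h2)
            convert this using 1
            ext i
            fin_cases i <;> simp [act, tv, tz, ← h1]
          · apply hno' (e 0) (e 2) h3 h2
            convert he using 1
            ext i
            fin_cases i <;> simp [← h1]
        · rcases lt_or_gt_of_ne h0 with h3 | h3
          · have := hE.mem 1 2 he
            apply hno' (-e 0) (-e 2) (by linarith) (by rw [neg_sq, neg_sq]; exact h2)
            convert this using 1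
            ext i
            fin_cases i <;> simp [act, tv, tz, h1]
          · have := hE.mem 1 1 he
            apply hno' (e 0) (-e 2) h3 (by rw [neg_sq]; exact h2)
            convert this using 1
            ext i
            fin_cases i <;> simp [act, tv, tz, h1]
  refine not_all_special h hconv hc fun e he => ?_
  by_cases h01 : e 0 ^ 2 = e 1 ^ 2
  · exact key e he h01
  · by_cases h12 : e 1 ^ 2 = e 2 ^ 2
    · refine special_act (Equiv.addLeft 1) 0 (key _ (hE.mem _ _ he) ?_)
      rw [sq_act, sq_act]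
      exact h12
    · by_cases h02 : e 0 ^ 2 = e 2 ^ 2
      · refine special_act (Equiv.addLeft 2) 0 (key _ (hE.mem _ _ he) ?_)
        rw [sq_act, sq_act]
        exact h02.symm
      · exact (gen_orbit hE hfin hc he h01 h12 h02).elim

/-- the point of the orbit in the chamber -/
noncomputable def dom (x z : ℝ) : V :=
  if x < z then ![z, x, x] else if z < -x then ![-z, x, -x] else ![x, x, z]

lemma dom_unique {x z : ℝ} (hx : 0 < x) (hz : z ^ 2 ≠ x ^ 2) {v : V} (hv : v ∈ orb x z)
    (h01 : v 1 ≤ v 0) (h12 : v 2 ≤ v 1) (h12' : -v 2 ≤ v 1) : v = dom x z := by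
  have hz1 : z ≠ x := fun h => hz (by rw [h])
  have hz2 : z ≠ -x := fun h => hz (by rw [h, neg_sq])
  obtain ⟨⟨a, k⟩, rfl⟩ := hv
  simp only [act, tv] at h01 h12 h12' ⊢
  rcases lt_or_gt_of_ne hz1 with g1 | g1
  · rcases lt_or_gt_of_ne hz2 with g2 | g2
    · rw [dom, if_neg (by linarith), if_pos g2]
      fin_cases a <;> fin_cases k <;> simp [tz] at h01 h12 h12' ⊢ <;>
        first
          | (exfalso; linarith)
          | (ext i; fin_cases i <;> simp [act, tv, tz] <;> linarith)
    · rw [dom, if_neg (by linarith), if_neg (by linarith)]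
      fin_cases a <;> fin_cases k <;> simp [tz] at h01 h12 h12' ⊢ <;>
        first
          | (exfalso; linarith)
          | (ext i; fin_cases i <;> simp [act, tv, tz] <;> linarith)
  · rw [dom, if_pos g1]
    fin_cases a <;> fin_cases k <;> simp [tz] at h01 h12 h12' ⊢ <;>
      first
        | (exfalso; linarith)
        | (ext i; fin_cases i <;> simp [act, tv, tz] <;> linarith)

end Pool.Agent.R358.FV
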