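import Pool.Agent.R358.FV.Act

/-! Polytopes with twelve vertices and the full symmetry group of the tetrahedron: the vertices. -/

set_option autoImplicit false

namespace Pool.Agent.R358.FV

open Set

lemma third {P : Set V} (h : Inv P) (hc : Convex ℝ P) {p : V} (hp : p ∈ P) :
    (fun i => -(1 / 3 : ℝ) * p i) ∈ P := by
  have h1 := h.mem 1 1 hp
  have h2 := h.mem 1 2 hp
  have h3 := h.mem 1 3 hp
  have h12 := hc h1 h2 (a := 1 / 2) (b := 1 / 2) (by norm_num) (by norm_num) (by norm_num)
  have h123 := hc h12 h3 (a := 2 / 3) (b := 1 / 3) (by norm_num) (by norm_num) (by norm_num)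
  convert h123 using 1
  ext i
  simp only [act, tv, Pi.add_apply, Pi.smul_apply, smul_eq_mul, Equiv.Perm.coe_one, id]
  fin_cases i <;> simp [tz] <;> ring

lemma zero_mem {P : Set V} (h : Inv P) (hc : Convex ℝ P) {p : V} (hp : p ∈ P) :
    (0 : V) ∈ P := by
  have h1 := hc hp (third h hc hp) (a := 1 / 4) (b := 3 / 4) (by norm_num) (by norm_num)
    (by norm_num)
  convert h1 using 1
  ext i
  simp only [Pi.add_apply, Pi.smul_apply, smul_eq_mul, Pi.zero_apply]
  ring

lemma ext_ne_zero {P : Set V} (h : Inv P) (hc : Convex ℝ P) {p : V} (hp : p ∈ P) (hp0 : p ≠ 0) :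
    (0 : V) ∉ P.extremePoints ℝ := by
  intro h0
  have h1 := (mem_extremePoints.1 h0).2 p hp _ (third h hc hp) (by
    refine ⟨1 / 4, 3 / 4, by norm_num, by norm_num, by norm_num, ?_⟩
    ext i
    simp only [Pi.add_apply, Pi.smul_apply, smul_eq_mul, Pi.zero_apply]
    ring)
  exact hp0 h1.1

lemma ray {P : Set V} (h : Inv P) (hc : Convex ℝ P) {e : V} (he : e ∈ P.extremePoints ℝ)
    (he0 : e ≠ 0) {t : ℝ} (ht : 0 < t) (hte : t • e ∈ P.extremePoints ℝ) : t = 1 := by
  have h0 := zero_mem h hc he.1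
  rcases lt_trichotomy t 1 with h1 | h1 | h1
  · exfalso
    have h2 := (mem_extremePoints.1 hte).2 0 h0 e he.1 (by
      refine ⟨1 - t, t, by linarith, ht, by ring, ?_⟩
      simp)
    rw [← h2.1] at h2
    exact he0 h2.2
  · exact h1
  · exfalso
    have ht0 : t ≠ 0 := ht.ne'
    have h2 := (mem_extremePoints.1 he).2 0 h0 (t • e) hte.1 (by
      refine ⟨1 - 1 / t, 1 / t, ?_, by positivity, by ring, ?_⟩
      · rw [sub_pos, div_lt_one ht]
        exact h1
      · rw [smul_zero, zero_add, smul_smul, one_div, inv_mul_cancel₀ ht0, one_smul])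
    exact he0 h2.1.symm

lemma tz_inj : ∀ (k k' : Fin 4) (i j : Fin 3), i ≠ j → tz k i = tz k' i → tz k j = tz k' j →
    k = k' := by decide

/-- the signs are determined if at most one coordinate is zero -/
lemma sign_inj {v : V} {i j : Fin 3} (hij : i ≠ j) (hi : v i ≠ 0) (hj : v j ≠ 0) {k k' : Fin 4}
    (h : ∀ l, tv k l * v l = tv k' l * v l) : k = k' := by
  refine tz_inj k k' i j hij ?_ ?_
  · have := mul_right_cancel₀ hi (h i)
    simp only [tv] at this
    exact_mod_cast this
  · have := mul_right_cancel₀ hj (h j)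
    simp only [tv] at this
    exact_mod_cast this

lemma sq_act (σ : Equiv.Perm (Fin 3)) (k : Fin 4) (v : V) (i : Fin 3) :
    act σ k v i ^ 2 = v (σ i) ^ 2 := by
  simp only [act]
  linear_combination (v (σ i)) ^ 2 * tv_sq k i

/-- a point with three distinct squares has 24 images -/
lemma gen_orbit {E : Set V} (hE : Inv E) (hfin : E.Finite) (hc : E.ncard = 12) {e : V}
    (he : e ∈ E) (h01 : e 0 ^ 2 ≠ e 1 ^ 2) (h12 : e 1 ^ 2 ≠ e 2 ^ 2) (h02 : e 0 ^ 2 ≠ e 2 ^ 2) :
    False := by
  have hsq : ∀ i j : Fin 3, e i ^ 2 = e j ^ 2 → i = j := by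
    intro i j h
    fin_cases i <;> fin_cases j <;> simp at h ⊢
    · exact h01 h
    · exact h02 h
    · exact h01 h.symm
    · exact h12 h
    · exact h02 h.symm
    · exact h12 h.symm
  have hinj : Function.Injective (fun p : Equiv.Perm (Fin 3) × Fin 4 => act p.1 p.2 e) := by
    rintro ⟨σ, k⟩ ⟨τ, m⟩ h
    have h' : ∀ i, act σ k e i = act τ m e i := fun i => congrFun h i
    have hst : σ = τ := by
      ext i
      have h2 := congrArg (· ^ 2) (h' i)
      simp only [sq_act] at h2
      rw [hsq _ _ h2]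
    subst hst
    have hz : ∃ i j : Fin 3, i ≠ j ∧ e (σ i) ≠ 0 ∧ e (σ j) ≠ 0 := by
      by_contra hno
      push Not at hno
      have g01 := hno 0 1 (by decide)
      have g12 := hno 1 2 (by decide)
      have g02 := hno 0 2 (by decide)
      have inj : ∀ i j : Fin 3, i ≠ j → e (σ i) = 0 → e (σ j) = 0 → False := by
        intro i j hij hi hj
        apply hij
        apply σ.injective
        apply hsq
        rw [hi, hj]
      by_cases h0 : e (σ 0) = 0
      · by_cases h1 : e (σ 1) = 0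
        · exact inj 0 1 (by decide) h0 h1
        · exact inj 0 2 (by decide) h0 (g12 h1)
      · exact inj 1 2 (by decide) (g01 h0) (g02 h0)
    obtain ⟨i, j, hij, hi, hj⟩ := hz
    have := sign_inj (v := fun l => e (σ l)) hij hi hj (k := k) (k' := m) h'
    rw [this]
  have hsub : range (fun p : Equiv.Perm (Fin 3) × Fin 4 => act p.1 p.2 e) ⊆ E := by
    rintro _ ⟨p, rfl⟩
    exact hE.mem p.1 p.2 he
  have h1 := Set.ncard_le_ncard hsub hfin
  rw [Set.ncard_range_of_injective hinj, hc] at h1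
  have h2 : Nat.card (Equiv.Perm (Fin 3) × Fin 4) = 24 := by
    rw [Nat.card_eq_fintype_card, Fintype.card_prod, Fintype.card_perm]
    rfl
  omega

/-- the orbit of `(x, x, z)` -/
def orb (x z : ℝ) : Set V :=
  range (fun p : Fin 3 × Fin 4 => act (Equiv.addLeft p.1) p.2 ![x, x, z])

lemma orb_eq {E : Set V} (hE : Inv E) (hfin : E.Finite) (hc : E.ncard = 12) {x z : ℝ} (hx : 0 < x)
    (hz : z ^ 2 ≠ x ^ 2) (h : ![x, x, z] ∈ E) : E = orb x z := by
  have hinj : Function.Injective
      (fun p : Fin 3 × Fin 4 => act (Equiv.addLeft p.1) p.2 ![x, x, z]) := by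
    rintro ⟨a, k⟩ ⟨b, m⟩ h
    have h' : ∀ i, act (Equiv.addLeft a) k ![x, x, z] i = act (Equiv.addLeft b) m ![x, x, z] i :=
      fun i => congrFun h i
    have hab : a = b := by
      have h2 : ∀ i, (![x, x, z] (a + i)) ^ 2 = (![x, x, z] (b + i)) ^ 2 := fun i => by
        have h3 := sq_act (Equiv.addLeft a) k ![x, x, z] i
        have h4 := sq_act (Equiv.addLeft b) m ![x, x, z] i
        rw [h' i] at h3
        exact h3.symm.trans h4
      have h20 := h2 0
      have h21 := h2 1
      have h22 := h2 2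
      clear h2 h' h
      fin_cases a <;> fin_cases b <;> first
        | rfl
        | (exfalso
           simp at h20 h21 h22
           first
             | exact hz h20
             | exact hz h20.symm
             | exact hz h21
             | exact hz h21.symm
             | exact hz h22
             | exact hz h22.symm)
    subst hab
    have hz : ∃ i j : Fin 3, i ≠ j ∧ ![x, x, z] (a + i) ≠ 0 ∧ ![x, x, z] (a + j) ≠ 0 := by
      fin_cases a
      · exact ⟨0, 1, by decide, hx.ne', hx.ne'⟩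
      · exact ⟨0, 2, by decide, hx.ne', hx.ne'⟩
      · exact ⟨1, 2, by decide, hx.ne', hx.ne'⟩
    obtain ⟨i, j, hij, hi, hj⟩ := hz
    have := sign_inj (v := fun l => ![x, x, z] (a + l)) hij hi hj (k := k) (k' := m) h'
    rw [this]
  have hsub : orb x z ⊆ E := by
    rintro _ ⟨p, rfl⟩
    exact hE.mem _ p.2 h
  symm
  refine Set.eq_of_subset_of_ncard_le hsub ?_ hfin
  unfold orb
  rw [Set.ncard_range_of_injective hinj, hc, Nat.card_eq_fintype_card, Fintype.card_prod]
  rfl

/-- the fourteen special directions -/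
def nz : Fin 14 → Fin 3 → ℤ :=
  ![![1, 0, 0], ![-1, 0, 0], ![0, 1, 0], ![0, -1, 0], ![0, 0, 1], ![0, 0, -1],
    ![1, 1, 1], ![1, -1, -1], ![-1, 1, -1], ![-1, -1, 1],
    ![-1, -1, -1], ![-1, 1, 1], ![1, -1, 1], ![1, 1, -1]]

def nv (m : Fin 14) : V := fun i => (nz m i : ℝ)

/-- the three classes of the special directions -/
def blk : Fin 14 → Fin 3 := ![0, 0, 0, 0, 0, 0, 1, 1, 1, 1, 2, 2, 2, 2]

lemma nz_blk : ∀ a b : Fin 14, blk a = blk b → ∃ (σ : Equiv.Perm (Fin 3)) (k : Fin 4), ∀ i,
    nz a i = tz k i * nz b (σ i) := by decide +kernel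

lemma blk_card : ∀ a : Fin 14, (Finset.univ.filter (fun b => blk b ≠ blk a)).card ≤ 10 := by
  decide

lemma nz_act : ∀ (σ : Equiv.Perm (Fin 3)) (k : Fin 4) (m : Fin 14), ∃ n : Fin 14, ∀ i,
    nz n i = tz k i * nz m (σ i) := by decide +kernel

lemma nz_inj : Function.Injective nz := by decide

lemma nz_val : ∀ (m : Fin 14) (i : Fin 3), nz m i = 0 ∨ nz m i = 1 ∨ nz m i = -1 := by decide

lemma nv_ne_zero (m : Fin 14) : nv m ≠ 0 := by
  intro h
  have h1 : ∀ m : Fin 14, ∃ i, nz m i ≠ 0 := by decide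
  obtain ⟨i, hi⟩ := h1 m
  have := congrFun h i
  simp only [nv, Pi.zero_apply] at this
  exact hi (by exact_mod_cast this)

lemma smul_nv_inj {s t : ℝ} (hs : 0 < s) (ht : 0 < t) {m n : Fin 14} (h : s • nv m = t • nv n) :
    m = n := by
  apply nz_inj
  ext i
  have hi := congrFun h i
  simp only [nv, Pi.smul_apply, smul_eq_mul] at hi
  rcases nz_val m i with h1 | h1 | h1 <;> rcases nz_val n i with h2 | h2 | h2 <;>
    rw [h1, h2] at hi ⊢ <;> exfalso <;> push_cast at hi <;> nlinarith

end Pool.Agent.R358.FV
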